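import Mathlib

/-!
# A criterion for infinite rank
-/

namespace Pool.Agent.H23

open TensorProduct

/-- If `ℚ ⊗ M` is finite-dimensional, then some finitely generated subgroup of `M` contains a
nonzero multiple of every element of `M`. -/
theorem exists_finset_of_finite (M : Type*) [AddCommGroup M]
    (h : FiniteDimensional ℚ (ℚ ⊗[ℤ] M)) :
    ∃ T : Finset M, ∀ P : M, ∃ n : ℕ, n ≠ 0 ∧ n • P ∈ AddSubgroup.closure (T : Set M) := by
  classical
  let f : M →ₗ[ℤ] ℚ ⊗[ℤ] M := TensorProduct.mk ℤ ℚ M 1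
  have hf : IsLocalizedModule (nonZeroDivisors ℤ) f :=
    (isLocalizedModule_iff_isBaseChange (nonZeroDivisors ℤ) ℚ f).2
      (TensorProduct.isBaseChange ℤ M ℚ)
  obtain ⟨s, hs⟩ := h.fg_top
  have hsurj : ∀ y : ℚ ⊗[ℤ] M, ∃ t : M, ∃ c : ℤ, c ≠ 0 ∧ c • y = f t := by
    intro y
    obtain ⟨⟨t, c⟩, hc⟩ := IsLocalizedModule.surj (nonZeroDivisors ℤ) f y
    exact ⟨t, c, nonZeroDivisors.coe_ne_zero c, hc⟩
  choose t c hc0 hc using hsurj
  refine ⟨s.image t, fun P => ?_⟩
  have hspan : ∀ z ∈ Submodule.span ℚ (s : Set (ℚ ⊗[ℤ] M)), ∃ n : ℤ, n ≠ 0 ∧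
      ∃ w ∈ AddSubgroup.closure ((s.image t : Finset M) : Set M), n • z = f w := by
    intro z hz
    induction hz using Submodule.span_induction with
    | mem x hx =>
      exact ⟨c x, hc0 x, t x, AddSubgroup.subset_closure (by
        simp only [Finset.coe_image, Set.mem_image]
        exact ⟨x, hx, rfl⟩), hc x⟩
    | zero => exact ⟨1, one_ne_zero, 0, zero_mem _, by simp⟩
    | add x y _ _ hx hy =>
      obtain ⟨n, hn, w, hw, he⟩ := hx
      obtain ⟨n', hn', w', hw', he'⟩ := hy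
      refine ⟨n * n', mul_ne_zero hn hn', n' • w + n • w', ?_, ?_⟩
      · exact add_mem (zsmul_mem hw _) (zsmul_mem hw' _)
      · rw [smul_add, mul_comm n n', mul_smul, he, mul_comm n' n, mul_smul, he', map_add,
          map_smul, map_smul]
    | smul q x _ hx =>
      obtain ⟨n, hn, w, hw, he⟩ := hx
      refine ⟨n * q.den, mul_ne_zero hn (by exact_mod_cast q.den_nz), q.num • w,
        zsmul_mem hw _, ?_⟩
      rw [map_smul, ← he]
      have h1 : ((n * (q.den : ℤ) : ℤ)) • q • x = (((n * (q.den : ℤ) : ℤ) : ℚ) * q) • x := by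
        rw [mul_smul (((n * (q.den : ℤ) : ℤ) : ℚ)) q x, Int.cast_smul_eq_zsmul]
      have h2 : q.num • n • x = (((q.num * n : ℤ) : ℚ)) • x := by
        rw [Int.cast_smul_eq_zsmul, mul_smul]
      rw [h1, h2]
      congr 1
      push_cast
      have := Rat.den_mul_eq_num q
      rw [mul_assoc, this]
      ring
  obtain ⟨n, hn, w, hw, he⟩ := hspan (f P) (by rw [hs]; trivial)
  have h1 : f (n • P - w) = 0 := by rw [map_sub, map_smul, he, sub_self]
  rw [IsLocalizedModule.eq_zero_iff (nonZeroDivisors ℤ) f] at h1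
  obtain ⟨d, hd⟩ := h1
  have hd0 : (d : ℤ) ≠ 0 := nonZeroDivisors.coe_ne_zero d
  have h2 : ((d : ℤ) * n) • P = (d : ℤ) • w := by
    have : (d : ℤ) • (n • P - w) = 0 := hd
    rw [smul_sub, sub_eq_zero] at this
    rw [mul_smul, this]
  refine ⟨((d : ℤ) * n).natAbs, Int.natAbs_ne_zero.2 (mul_ne_zero hd0 hn), ?_⟩
  have h3 : ((d : ℤ) * n) • P ∈ AddSubgroup.closure ((s.image t : Finset M) : Set M) := by
    rw [h2]
    exact zsmul_mem hw _
  rcases Int.natAbs_eq ((d : ℤ) * n) with h | h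
  · rw [h] at h3
    rwa [natCast_zsmul] at h3
  · rw [h, neg_smul, neg_mem_iff, natCast_zsmul] at h3
    exact h3

end Pool.Agent.H23
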