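import Mathlib

/-!
# Rational square classes in finitely generated fields of characteristic zero
-/

namespace Pool.Agent.H23

open Polynomial IntermediateField

/-- The trace of a square root of a non-square vanishes. -/
theorem trace_sqrt {N M : Type*} [Field N] [Field M] [Algebra N M] [FiniteDimensional N M]
    {x : M} {a : N} (hx : x ^ 2 = algebraMap N M a) (ha : ¬ IsSquare a) :
    Algebra.trace N M x = 0 := by
  have hirr : Irreducible (X ^ 2 - C a : N[X]) :=
    X_pow_sub_C_irreducible_of_prime Nat.prime_two fun b hb => ha ⟨b, by rw [← hb, sq]⟩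
  have hmon : (X ^ 2 - C a : N[X]).Monic := monic_X_pow_sub_C a two_ne_zero
  have hmin : minpoly N x = X ^ 2 - C a := by
    symm
    apply minpoly.eq_of_irreducible_of_monic hirr _ hmon
    simp [hx]
  rw [trace_eq_finrank_mul_minpoly_nextCoeff, hmin]
  have hdeg : (X ^ 2 - C a : N[X]).natDegree = 2 := natDegree_X_pow_sub_C
  have : (X ^ 2 - C a : N[X]).nextCoeff = 0 := by
    rw [nextCoeff_of_natDegree_pos (by rw [hdeg]; norm_num), hdeg]
    simp [coeff_X_pow]
  rw [this]
  simp

/-- Square roots of elements in distinct square classes are linearly independent. -/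
theorem linearIndependent_sqrt {N M : Type*} [Field N] [CharZero N] [Field M] [Algebra N M]
    [FiniteDimensional N M] {ι : Type*} (c : ι → N) (hc : ∀ i, c i ≠ 0)
    (hcc : ∀ i j, i ≠ j → ¬ IsSquare (c i * c j)) (x : ι → M)
    (hx : ∀ i, x i ^ 2 = algebraMap N M (c i)) : LinearIndependent N x := by
  classical
  rw [linearIndependent_iff']
  intro s g hg i hi
  have h1 : Algebra.trace N M (∑ j ∈ s, g j • (x j * x i)) = 0 := by
    have : ∑ j ∈ s, g j • (x j * x i) = (∑ j ∈ s, g j • x j) * x i := by
      rw [Finset.sum_mul]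
      simp
    rw [this, hg, zero_mul, map_zero]
  rw [map_sum] at h1
  have h2 : ∀ j ∈ s, j ≠ i → Algebra.trace N M (g j • (x j * x i)) = 0 := by
    intro j _ hji
    rw [map_smul, trace_sqrt (a := c j * c i) _ (hcc j i hji), smul_zero]
    rw [mul_pow, hx, hx, map_mul]
  rw [Finset.sum_eq_single_of_mem i hi h2, ← sq, hx, map_smul, Algebra.trace_algebraMap] at h1
  rw [smul_eq_mul, nsmul_eq_mul] at h1
  have hfr : ((Module.finrank N M : ℕ) : N) ≠ 0 := by
    exact_mod_cast (Module.finrank_pos (R := N) (M := M)).ne'
  rcases mul_eq_zero.1 h1 with h | h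
  · exact h
  · exact absurd h (mul_ne_zero hfr (hc i))

/-- A constant which is a square in a purely transcendental extension is a square. -/
theorem isSquare_of_isSquare_adjoin {F E : Type*} [Field F] [Field E] [Algebra F E] {ι : Type*}
    {x : ι → E} (hx : AlgebraicIndependent F x) {c : F}
    (h : IsSquare (algebraMap F (adjoin F (Set.range x)) c)) : IsSquare c := by
  obtain ⟨f, hf⟩ := h
  -- transport to the fraction field of the polynomial ring
  set φ := hx.aevalEquivField
  have h1 : (φ.symm f) * (φ.symm f) = algebraMap F (FractionRing (MvPolynomial ι F)) c := by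
    rw [← map_mul, ← hf, AlgEquiv.commutes]
  have h2 : IsIntegral (MvPolynomial ι F) (φ.symm f) := by
    refine ⟨X ^ 2 - C (algebraMap F (MvPolynomial ι F) c), monic_X_pow_sub_C _ two_ne_zero, ?_⟩
    simp only [eval₂_sub, eval₂_X_pow, eval₂_C]
    rw [sq, h1, ← IsScalarTower.algebraMap_apply, sub_self]
  obtain ⟨p, hp⟩ := IsIntegrallyClosed.isIntegral_iff.1 h2
  rw [← hp, ← map_mul, IsScalarTower.algebraMap_apply F (MvPolynomial ι F)] at h1
  have h3 := IsFractionRing.injective (MvPolynomial ι F) (FractionRing (MvPolynomial ι F)) h1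
  refine ⟨MvPolynomial.eval (fun _ => (0 : F)) p, ?_⟩
  rw [← map_mul, h3]
  simp

/-- In a finitely generated field of characteristic zero only boundedly many independent rational
numbers can be squares. -/
theorem exists_bound_squares (M : Type*) [Field M] [CharZero M] [Algebra.EssFiniteType ℚ M] :
    ∃ n : ℕ, ∀ c : Fin (n + 1) → ℚ, (∀ i, c i ≠ 0) → (∀ i j, i ≠ j → ¬ IsSquare (c i * c j)) →
      ∃ i, ¬ IsSquare ((c i : ℚ) : M) := by
  classical
  have ⟨s, hs⟩ := IntermediateField.fg_top ℚ M
  have : Algebra.IsAlgebraic (Algebra.adjoin ℚ (s : Set M)) M := by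
    rw [← isAlgebraic_adjoin_iff_top, hs, Algebra.isAlgebraic_iff_isIntegral]
    exact Algebra.isIntegral_of_surjective topEquiv.surjective
  obtain ⟨t, hts, ht⟩ := exists_isTranscendenceBasis_subset (R := ℚ) (s : Set M)
  set N := adjoin ℚ (Set.range ((↑) : t → M)) with hN
  have hfin : Module.Finite N M := by
    have : Algebra.EssFiniteType N M := .of_comp ℚ _ _
    have : Algebra.IsAlgebraic N M := ht.isAlgebraic_field
    exact Algebra.finite_of_essFiniteType_of_isAlgebraic
  refine ⟨Module.finrank N M, fun c hc hcc => ?_⟩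
  by_contra hcon
  push Not at hcon
  choose x hx using hcon
  have hli : LinearIndependent N x := by
    refine linearIndependent_sqrt (fun i => algebraMap ℚ N (c i)) ?_ ?_ x ?_
    · intro i
      rw [Ne, map_eq_zero]
      exact hc i
    · intro i j hij h
      rw [← map_mul] at h
      exact hcc i j hij (isSquare_of_isSquare_adjoin ht.1 h)
    · intro i
      rw [sq, ← hx i, ← IsScalarTower.algebraMap_apply, eq_ratCast]
  have := hli.fintype_card_le_finrank
  rw [Fintype.card_fin] at this
  omega

end Pool.Agent.H23
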