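import Mathlib

/-!
# A point with a deep pole above two is not torsion
-/

set_option linter.unusedSimpArgs false

namespace Pool.Agent.H23

open WeierstrassCurve

variable {K : Type*} [Field K] (W : Affine K) {Γ : Type*} [LinearOrderedCommGroupWithZero Γ]
  (v : Valuation K Γ)

/-- `x` is large compared with the coefficients of `W`. -/
structure Big (x : K) : Prop where
  one : 1 < v x
  b₂ : v W.b₂ < v 4 * v x
  b₄ : v W.b₄ < v 4 * v x
  b₆ : v W.b₆ < v 4 * v x
  b₈ : v W.b₈ < v x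

variable {W v}

theorem Big.mono {x x' : K} (h : Big W v x) (hx : v x ≤ v x') : Big W v x' where
  one := h.one.trans_le hx
  b₂ := h.b₂.trans_le (mul_le_mul_right hx _)
  b₄ := h.b₄.trans_le (mul_le_mul_right hx _)
  b₆ := h.b₆.trans_le (mul_le_mul_right hx _)
  b₈ := h.b₈.trans_le hx

theorem v_num (h2 : v 2 ≤ 1) {x : K} (h : Big W v x) :
    v (x ^ 4 - W.b₄ * x ^ 2 - 2 * W.b₆ * x - W.b₈) = v x ^ 4 := by
  have h4 : v (4 : K) ≤ 1 := by
    have : (4 : K) = 2 * 2 := by norm_num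
    rw [this, map_mul]
    exact mul_le_one' h2 h2
  have hx1 := h.one
  have hx0 : 0 < v x := zero_lt_one.trans hx1
  have hb4 : v W.b₄ < v x := h.b₄.trans_le (mul_le_of_le_one_left' h4)
  have hb6 : v W.b₆ < v x := h.b₆.trans_le (mul_le_of_le_one_left' h4)
  have hpow : ∀ k, 1 ≤ v x ^ k := fun k => one_le_pow₀ hx1.le
  have e1 : v (W.b₄ * x ^ 2) < v x ^ 4 := by
    rw [map_mul, map_pow]
    calc v W.b₄ * v x ^ 2 < v x * v x ^ 2 :=
          mul_lt_mul_of_pos_right hb4 (pow_pos hx0 2)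
      _ = v x ^ 3 * 1 := by simp only [pow_succ, pow_zero, one_mul, mul_one, mul_assoc, mul_comm, mul_left_comm]
      _ ≤ v x ^ 3 * v x := by gcongr
      _ = v x ^ 4 := by simp only [pow_succ, pow_zero, one_mul, mul_one, mul_assoc, mul_comm, mul_left_comm]
  have e2 : v (2 * W.b₆ * x) < v x ^ 4 := by
    rw [map_mul, map_mul]
    calc v 2 * v W.b₆ * v x ≤ 1 * v W.b₆ * v x := by gcongr
      _ = v W.b₆ * v x := by rw [one_mul]
      _ < v x * v x := mul_lt_mul_of_pos_right hb6 hx0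
      _ = v x ^ 2 * 1 := by simp only [pow_succ, pow_zero, one_mul, mul_one, mul_assoc, mul_comm, mul_left_comm]
      _ ≤ v x ^ 2 * v x ^ 2 := by gcongr; exact hpow 2
      _ = v x ^ 4 := by simp only [pow_succ, pow_zero, one_mul, mul_one, mul_assoc, mul_comm, mul_left_comm]
  have e3 : v W.b₈ < v x ^ 4 := by
    calc v W.b₈ < v x := h.b₈
      _ = v x * 1 := by rw [mul_one]
      _ ≤ v x * v x ^ 3 := by gcongr; exact hpow 3
      _ = v x ^ 4 := by simp only [pow_succ, pow_zero, one_mul, mul_one, mul_assoc, mul_comm, mul_left_comm]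
  have e4 : v (x ^ 4) = v x ^ 4 := map_pow _ _ _
  have f1 : v (x ^ 4 - W.b₄ * x ^ 2) = v x ^ 4 := by
    rw [← e4]
    exact Valuation.map_sub_eq_of_lt_left v (by rw [e4]; exact e1)
  have f2 : v (x ^ 4 - W.b₄ * x ^ 2 - 2 * W.b₆ * x) = v x ^ 4 := by
    rw [Valuation.map_sub_eq_of_lt_left v (by rw [f1]; exact e2), f1]
  rw [Valuation.map_sub_eq_of_lt_left v (by rw [f2]; exact e3), f2]

theorem v_den (h2 : v 2 ≤ 1) (h20 : v 2 ≠ 0) {x : K} (h : Big W v x) :
    v (4 * x ^ 3 + W.b₂ * x ^ 2 + 2 * W.b₄ * x + W.b₆) = v 4 * v x ^ 3 := by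
  have h44 : v (4 : K) = v 2 * v 2 := by
    have : (4 : K) = 2 * 2 := by norm_num
    rw [this, map_mul]
  have h40 : 0 < v (4 : K) := by
    rw [h44]
    exact zero_lt_iff.2 (mul_ne_zero h20 h20)
  have hx1 := h.one
  have hx0 : 0 < v x := zero_lt_one.trans hx1
  have hpow : ∀ k, 1 ≤ v x ^ k := fun k => one_le_pow₀ hx1.le
  have e1 : v (W.b₂ * x ^ 2) < v 4 * v x ^ 3 := by
    rw [map_mul, map_pow]
    calc v W.b₂ * v x ^ 2 < v 4 * v x * v x ^ 2 :=
          mul_lt_mul_of_pos_right h.b₂ (pow_pos hx0 2)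
      _ = v 4 * v x ^ 3 := by simp only [pow_succ, pow_zero, one_mul, mul_one, mul_assoc, mul_comm, mul_left_comm]
  have e2 : v (2 * W.b₄ * x) < v 4 * v x ^ 3 := by
    rw [map_mul, map_mul]
    calc v 2 * v W.b₄ * v x ≤ 1 * v W.b₄ * v x := by gcongr
      _ = v W.b₄ * v x := by rw [one_mul]
      _ < v 4 * v x * v x := mul_lt_mul_of_pos_right h.b₄ hx0
      _ = v 4 * v x ^ 2 * 1 := by simp only [pow_succ, pow_zero, one_mul, mul_one, mul_assoc, mul_comm, mul_left_comm]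
      _ ≤ v 4 * v x ^ 2 * v x := by gcongr
      _ = v 4 * v x ^ 3 := by simp only [pow_succ, pow_zero, one_mul, mul_one, mul_assoc, mul_comm, mul_left_comm]
  have e3 : v W.b₆ < v 4 * v x ^ 3 := by
    calc v W.b₆ < v 4 * v x := h.b₆
      _ = v 4 * v x * 1 := by rw [mul_one]
      _ ≤ v 4 * v x * v x ^ 2 := by gcongr; exact hpow 2
      _ = v 4 * v x ^ 3 := by simp only [pow_succ, pow_zero, one_mul, mul_one, mul_assoc, mul_comm, mul_left_comm]
  have e4 : v (4 * x ^ 3) = v 4 * v x ^ 3 := by rw [map_mul, map_pow]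
  have f1 : v (4 * x ^ 3 + W.b₂ * x ^ 2) = v 4 * v x ^ 3 := by
    rw [Valuation.map_add_eq_of_lt_left v (by rw [e4]; exact e1), e4]
  have f2 : v (4 * x ^ 3 + W.b₂ * x ^ 2 + 2 * W.b₄ * x) = v 4 * v x ^ 3 := by
    rw [Valuation.map_add_eq_of_lt_left v (by rw [f1]; exact e2), f1]
  rw [Valuation.map_add_eq_of_lt_left v (by rw [f2]; exact e3), f2]

/-- The square of `2y + a₁x + a₃`. -/
theorem sq_two_y {x y : K} (h : W.Equation x y) :
    (y - W.negY x y) ^ 2 = 4 * x ^ 3 + W.b₂ * x ^ 2 + 2 * W.b₄ * x + W.b₆ := by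
  rw [Affine.equation_iff] at h
  simp only [Affine.negY, WeierstrassCurve.b₂, WeierstrassCurve.b₄, WeierstrassCurve.b₆]
  linear_combination 4 * h

variable [DecidableEq K]

/-- The duplication formula. -/
theorem dbl_X {x y : K} (h : W.Equation x y) (hy : y ≠ W.negY x y) :
    W.addX x x (W.slope x x y y) * (4 * x ^ 3 + W.b₂ * x ^ 2 + 2 * W.b₄ * x + W.b₆)
      = x ^ 4 - W.b₄ * x ^ 2 - 2 * W.b₆ * x - W.b₈ := by
  have hne : y - W.negY x y ≠ 0 := sub_ne_zero.2 hy
  rw [← sq_two_y h, Affine.slope_of_Y_ne rfl hy]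
  rw [Affine.equation_iff] at h
  simp only [Affine.addX]
  field_simp
  simp only [Affine.negY, WeierstrassCurve.b₂, WeierstrassCurve.b₄, WeierstrassCurve.b₆,
    WeierstrassCurve.b₈]
  linear_combination (-W.a₁ ^ 2 - 4 * W.a₂ - 8 * x) * h

theorem dbl (h2 : v 2 ≤ 1) (h20 : v 2 ≠ 0) {x y : K} (h : W.Nonsingular x y)
    (hb : Big W v x) :
    ∃ x' y', ∃ h' : W.Nonsingular x' y', Affine.Point.some x y h + Affine.Point.some x y h =
      Affine.Point.some x' y' h' ∧ v x' * v 4 = v x := by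
  have hx0 : v x ≠ 0 := (zero_lt_one.trans hb.one).ne'
  have h40 : v (4 : K) ≠ 0 := by
    have : (4 : K) = 2 * 2 := by norm_num
    rw [this, map_mul]
    exact mul_ne_zero h20 h20
  have hden := v_den h2 h20 hb
  have hy : y ≠ W.negY x y := by
    intro hy
    have h1 := sq_two_y h.1
    rw [← hy, sub_self, zero_pow two_ne_zero] at h1
    rw [← h1, map_zero] at hden
    exact mul_ne_zero h40 (pow_ne_zero _ hx0) hden.symm
  refine ⟨_, _, _, Affine.Point.add_self_of_Y_ne hy, ?_⟩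
  have h1 := congrArg v (dbl_X h.1 hy)
  rw [map_mul, hden, v_num h2 hb] at h1
  have h3 : (v (W.addX x x (W.slope x x y y)) * v 4) * v x ^ 3 = v x * v x ^ 3 := by
    rw [mul_assoc, h1]
    simp only [pow_succ, pow_zero, one_mul, mul_one, mul_assoc, mul_comm, mul_left_comm]
  exact mul_right_cancel₀ (pow_ne_zero _ hx0) h3

theorem dbl_pow (h2 : v 2 < 1) (h20 : v 2 ≠ 0) {x y : K} (h : W.Nonsingular x y)
    (hb : Big W v x) (k : ℕ) :
    ∃ x' y', ∃ h' : W.Nonsingular x' y', (2 ^ k) • Affine.Point.some x y h =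
      Affine.Point.some x' y' h' ∧ v x' * v 4 ^ k = v x := by
  have h4 : v (4 : K) ≤ 1 := by
    have : (4 : K) = 2 * 2 := by norm_num
    rw [this, map_mul]
    exact mul_le_one' h2.le h2.le
  induction k with
  | zero => exact ⟨x, y, h, by simp, by simp⟩
  | succ k ih =>
    obtain ⟨x', y', h', he, hv⟩ := ih
    have hb' : Big W v x' := hb.mono (by
      rw [← hv]
      exact mul_le_of_le_one_right' (pow_le_one₀ zero_le h4))
    obtain ⟨x'', y'', h'', he', hv'⟩ := dbl h2.le h20 h' hb'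
    refine ⟨x'', y'', h'', ?_, ?_⟩
    · rw [pow_succ, mul_nsmul, he, two_nsmul, he']
    · rw [pow_succ, mul_comm (v 4 ^ k), ← mul_assoc, hv', hv]

/-- A point which is large at a place above two is not torsion. -/
theorem not_torsion (h2 : v 2 < 1) (h20 : v 2 ≠ 0) {x y : K} (h : W.Nonsingular x y)
    (hb : Big W v x) (n : ℕ) (hn : n ≠ 0) : n • Affine.Point.some x y h ≠ 0 := by
  intro h0
  have h40 : v (4 : K) ≠ 0 := by
    have : (4 : K) = 2 * 2 := by norm_num
    rw [this, map_mul]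
    exact mul_ne_zero h20 h20
  have h4 : v (4 : K) < 1 := by
    have : (4 : K) = 2 * 2 := by norm_num
    rw [this, map_mul]
    exact (mul_le_of_le_one_right' h2.le).trans_lt h2
  have hn' : 0 < n := Nat.pos_of_ne_zero hn
  -- pigeonhole on `2 ^ k mod n`
  obtain ⟨i, j, hij, he⟩ := Finite.exists_ne_map_eq_of_infinite
    (fun k : ℕ => (⟨2 ^ k % n, Nat.mod_lt _ hn'⟩ : Fin n))
  simp only [Fin.mk.injEq] at he
  have hmod : ∀ m : ℕ, m • Affine.Point.some x y h = (m % n) • Affine.Point.some x y h := by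
    intro m
    conv_lhs => rw [← Nat.mod_add_div m n, add_nsmul, mul_nsmul, h0, nsmul_zero, add_zero]
  have hmul : (2 ^ i) • Affine.Point.some x y h = (2 ^ j) • Affine.Point.some x y h := by
    rw [hmod (2 ^ i), hmod (2 ^ j), he]
  obtain ⟨x1, y1, h1, e1, v1⟩ := dbl_pow h2 h20 h hb i
  obtain ⟨x2, y2, h2', e2, v2⟩ := dbl_pow h2 h20 h hb j
  rw [e1, e2] at hmul
  have hx12 : x1 = x2 := by
    injection hmul
  subst hx12
  have hx0 : v x ≠ 0 := (zero_lt_one.trans hb.one).ne'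
  have hx1 : v x1 ≠ 0 := by
    intro h
    rw [h, zero_mul] at v1
    exact hx0 v1.symm
  have hpow : v (4 : K) ^ i = v 4 ^ j := mul_left_cancel₀ hx1 (by rw [v1, v2])
  exact hij (pow_right_injective₀ (zero_lt_iff.2 h40) h4.ne hpow)

end Pool.Agent.H23
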