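import Mathlib

/-!
# A valuation above two
-/

namespace Pool.Agent.H23

theorem exists_valuation_two (K : Type*) [Field K] [CharZero K] :
    ∃ V : ValuationSubring K, V.valuation 2 < 1 ∧ V.valuation 2 ≠ 0 := by
  let A : Subring K := (Int.castRingHom K).range
  let t : A := ⟨2, ⟨2, by simp⟩⟩
  have hne : Ideal.span {t} ≠ ⊤ := by
    intro h
    rw [Ideal.eq_top_iff_one, Ideal.mem_span_singleton] at h
    obtain ⟨⟨_, ⟨m, rfl⟩⟩, hm⟩ := h
    have h1 : (1 : K) = 2 * (m : K) := congrArg Subtype.val hm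
    have h2 : (1 : ℤ) = 2 * m := by exact_mod_cast h1
    omega
  obtain ⟨V, -, hV⟩ := Ideal.image_subset_nonunits_valuationSubring _ hne
  refine ⟨V, ?_, ?_⟩
  · have h2 : (2 : K) ∈ V.nonunits := hV ⟨t, Ideal.subset_span rfl, rfl⟩
    exact h2
  · rw [Valuation.ne_zero_iff]
    exact two_ne_zero

end Pool.Agent.H23
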