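import Mathlib
import Pool.Agent.H23.NonSq

/-!
# Quadratic characters detecting non-squares, and a non-square rational which is an `n`-th power
-/

namespace Pool.Agent.H23

/-- Nonzero elements of an elementary abelian `2`-group are detected by characters. -/
theorem exists_addCharacter {A : Type*} [AddCommGroup A] (h2 : ∀ x : A, 2 • x = 0) {a : A}
    (ha : a ≠ 0) : ∃ f : A →+ ZMod 2, f a ≠ 0 := by
  let : Module (ZMod 2) A := AddCommGroup.zmodModule h2
  obtain ⟨f, hf⟩ := Module.Projective.exists_dual_ne_zero (ZMod 2) ha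
  exact ⟨f.toAddMonoidHom, hf⟩

/-- A non-square unit is detected by a character of order two. -/
theorem exists_character {M : Type*} [Field M] (g : Mˣ) (hg : ¬ IsSquare (g : M)) :
    ∃ ψ : Mˣ →* Multiplicative (ZMod 2), ψ g ≠ 1 := by
  classical
  let H : Subgroup Mˣ := (powMonoidHom 2 : Mˣ →* Mˣ).range
  have h2 : ∀ x : Additive (Mˣ ⧸ H), 2 • x = 0 := by
    intro x
    induction x using Additive.rec with
    | _ x =>
      induction x using QuotientGroup.induction_on with
      | H z =>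
        rw [← ofMul_pow, ← QuotientGroup.mk_pow, ofMul_eq_zero, QuotientGroup.eq_one_iff]
        exact ⟨z, rfl⟩
  have hx : (Additive.ofMul (QuotientGroup.mk g : Mˣ ⧸ H)) ≠ 0 := by
    intro h
    rw [ofMul_eq_zero, QuotientGroup.eq_one_iff] at h
    obtain ⟨z, hz⟩ := h
    apply hg
    refine ⟨z, ?_⟩
    rw [← hz]
    simp [sq]
  obtain ⟨f, hf⟩ := exists_addCharacter (A := Additive (Mˣ ⧸ H)) h2 hx
  refine ⟨(AddMonoidHom.toMultiplicativeRight f).comp (QuotientGroup.mk' H), ?_⟩
  intro h
  apply hf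
  have := congrArg Multiplicative.toAdd h
  simpa using this

/-- If `K` has finitely many classes modulo `n`-th powers and `M` is a finitely generated field of
characteristic zero then some rational number is an `n`-th power in `K` and not a square in `M`. -/
theorem exists_rat_pow_not_isSquare (K : Type*) [Field K] [CharZero K] (n : ℕ)
    [Finite (Kˣ ⧸ (powMonoidHom n : Kˣ →* Kˣ).range)]
    (M : Type*) [Field M] [CharZero M] [Algebra.EssFiniteType ℚ M] :
    ∃ g : ℚ, g ≠ 0 ∧ (∃ k : K, k ^ n = (g : K)) ∧ ¬ IsSquare (g : M) := by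
  classical
  obtain ⟨N, hN⟩ := exists_bound_squares M
  have hprime0 : ∀ p : {p : ℕ // p.Prime}, ((p : ℕ) : K) ≠ 0 := fun p => by
    exact_mod_cast p.2.ne_zero
  have : Infinite {p : ℕ // p.Prime} := Nat.infinite_setOfPred_prime.to_subtype
  let f : {p : ℕ // p.Prime} → Kˣ ⧸ (powMonoidHom n : Kˣ →* Kˣ).range :=
    fun p => QuotientGroup.mk (Units.mk0 ((p : ℕ) : K) (hprime0 p))
  obtain ⟨y, hy⟩ := Finite.exists_infinite_fiber f
  let P := Infinite.natEmbedding (f ⁻¹' {y})
  let q : ℕ → ℕ := fun i => ((P i : {p : ℕ // p.Prime}) : ℕ)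
  have hqp : ∀ i, (q i).Prime := fun i => (P i : {p : ℕ // p.Prime}).2
  have hqinj : Function.Injective q := by
    intro i j h
    exact P.injective (Subtype.ext (Subtype.ext h))
  have hq0 : ∀ i, (q i : ℚ) ≠ 0 := fun i => by exact_mod_cast (hqp i).ne_zero
  have hsq : ∀ i j, i ≠ j → ¬ IsSquare ((q i : ℚ) * (q j : ℚ)) := by
    intro i j hij h
    have h' : IsSquare ((q i * q j : ℕ) : ℚ) := by
      push_cast
      exact h
    rw [Rat.isSquare_natCast_iff] at h'
    obtain ⟨r, hr⟩ := h'
    have h1 : q i ∣ r := by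
      have : q i ∣ r * r := ⟨q j, hr.symm⟩
      rcases (hqp i).dvd_mul.1 this with h | h <;> exact h
    obtain ⟨s, rfl⟩ := h1
    have h2 : q j = q i * (s * s) := by
      have := hr
      have h3 : q i * q j = q i * (q i * (s * s)) := by rw [hr]; ring
      exact Nat.eq_of_mul_eq_mul_left (hqp i).pos h3
    have h3 : q i ∣ q j := ⟨s * s, h2⟩
    have h4 := (Nat.prime_dvd_prime_iff_eq (hqp i) (hqp j)).1 h3
    exact hij (hqinj h4)
  obtain ⟨i, hi⟩ := hN (fun i : Fin (N + 1) => (q (i + 1) : ℚ) / (q 0 : ℚ))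
    (fun i => div_ne_zero (hq0 _) (hq0 _)) (by
      intro i j hij h
      apply hsq (i + 1) (j + 1) (by simpa [Fin.ext_iff] using hij)
      obtain ⟨r, hr⟩ := h
      refine ⟨r * q 0, ?_⟩
      have h0 := hq0 0
      field_simp at hr
      linear_combination hr)
  refine ⟨(q (i + 1) : ℚ) / (q 0 : ℚ), div_ne_zero (hq0 _) (hq0 _), ?_, hi⟩
  have hfib : f (P (i + 1)) = f (P 0) := by
    have h1 : f (P (i + 1)) = y := (P (i + 1)).2
    have h2 : f (P 0) = y := (P 0).2
    rw [h1, h2]
  have h3 := QuotientGroup.eq.1 hfib.symm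
  obtain ⟨k, hk⟩ := h3
  refine ⟨k, ?_⟩
  have h4 := congrArg (Units.val) hk
  simp only [powMonoidHom_apply, Units.val_pow_eq_pow_val, Units.val_mul,
    Units.val_inv_eq_inv_val, Units.val_mk0] at h4
  rw [h4]
  push_cast
  rw [div_eq_inv_mul]

end Pool.Agent.H23
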