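import Mathlib

/-!
# A multiplicative consequence of the Hales-Jewett theorem

For a field `L` of characteristic zero, a homomorphism `χ : Lˣ → G` to a finite commutative group and
a finite set `S ⊆ L`, every value `g` of `χ` is attained simultaneously by all `q + s`, `s ∈ S`,
for a suitable `q ∈ L`.
-/

namespace Pool.Agent.H23

variable {L : Type*} [Field L] {G : Type*} [CommGroup G]

/-- The classes which are attained simultaneously on a translate of `S`. -/
def Ach (χ : Lˣ →* G) (S : Finset L) : Set G :=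
  {g | ∃ q : L, ∀ s ∈ S, ∃ u : Lˣ, (u : L) = q + s ∧ χ u = g}

theorem Ach_mono (χ : Lˣ →* G) {S T : Finset L} (h : S ⊆ T) : Ach χ T ⊆ Ach χ S := by
  rintro g ⟨q, hq⟩
  exact ⟨q, fun s hs => hq s (h hs)⟩

theorem Ach_nonempty [CharZero L] [Finite G] (χ : Lˣ →* G) (S : Finset L) :
    (Ach χ S).Nonempty := by
  classical
  let C : L → Option G := fun x => if h : x = 0 then none else some (χ (Units.mk0 x h))
  obtain ⟨a, ha, b, c, hc⟩ :=
    Combinatorics.exists_mono_homothetic_copy (insert 0 (insert 1 S)) C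
  have ha0 : (a : L) ≠ 0 := by exact_mod_cast (Nat.pos_iff_ne_zero.1 ha)
  have h0 := hc 0 (by simp)
  have h1 := hc 1 (by simp)
  cases c with
  | none =>
    exfalso
    have h0' : a • (0 : L) + b = 0 := by
      by_contra hne
      simp only [C, dif_neg hne] at h0
      exact absurd h0 (by simp)
    have h1' : a • (1 : L) + b = 0 := by
      by_contra hne
      simp only [C, dif_neg hne] at h1
      exact absurd h1 (by simp)
    have hb : b = 0 := by simpa using h0'
    rw [hb] at h1'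
    simp only [nsmul_eq_mul, mul_one, add_zero] at h1'
    exact ha0 h1'
  | some g0 =>
    refine ⟨g0 * (χ (Units.mk0 (a : L) ha0))⁻¹, b / a, fun s hs => ?_⟩
    have h := hc s (by simp [hs])
    have hne : a • s + b ≠ 0 := by
      intro h0
      simp only [C, dif_pos h0] at h
      exact absurd h (by simp)
    refine ⟨Units.mk0 _ hne * (Units.mk0 (a : L) ha0)⁻¹, ?_, ?_⟩
    · simp only [Units.val_mul, Units.val_mk0, Units.val_inv_eq_inv_val, nsmul_eq_mul]
      field_simp
      ring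
    · simp only [C, dif_neg hne, Option.some.injEq] at h
      rw [map_mul, map_inv, h]

/-- The key combinatorial statement. -/
theorem exists_translate [CharZero L] [Finite G] (χ : Lˣ →* G) (S : Finset L) (g₁ : Lˣ) :
    ∃ q : L, ∀ s ∈ S, ∃ u : Lˣ, (u : L) = q + s ∧ χ u = χ g₁ := by
  classical
  -- choose `S₀` with minimal number of attained classes
  have hex : ∃ n : ℕ, ∃ S₀ : Finset L, (Ach χ S₀).ncard = n := ⟨_, ∅, rfl⟩
  obtain ⟨S₀, hS₀⟩ := Nat.find_spec hex
  have hmin : ∀ T : Finset L, (Ach χ S₀).ncard ≤ (Ach χ T).ncard := by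
    intro T
    rw [hS₀]
    exact Nat.find_min' hex ⟨T, rfl⟩
  have hsub : ∀ T : Finset L, Ach χ S₀ ⊆ Ach χ T := by
    intro T
    have h1 : Ach χ (S₀ ∪ T) ⊆ Ach χ S₀ := Ach_mono χ Finset.subset_union_left
    have h2 : Ach χ (S₀ ∪ T) = Ach χ S₀ :=
      Set.eq_of_subset_of_ncard_le h1 (hmin _) (Set.toFinite _)
    rw [← h2]
    exact Ach_mono χ Finset.subset_union_right
  obtain ⟨g0, hg0⟩ := Ach_nonempty χ S₀
  obtain ⟨q0, hq0⟩ := hsub {0} hg0
  obtain ⟨w, -, hw⟩ := hq0 0 (by simp)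
  -- scaling factor
  set l : Lˣ := g₁ * w⁻¹ with hl
  obtain ⟨q, hq⟩ := hsub (S.image fun t => ((l⁻¹ : Lˣ) : L) * t) hg0
  refine ⟨l * q, fun s hs => ?_⟩
  obtain ⟨u, hu, hχ⟩ := hq (((l⁻¹ : Lˣ) : L) * s) (Finset.mem_image_of_mem _ hs)
  refine ⟨l * u, ?_, ?_⟩
  · rw [Units.val_mul, hu, mul_add, ← mul_assoc, Units.mul_inv, one_mul]
  · rw [map_mul, hχ, hl, map_mul, map_inv, hw, inv_mul_cancel_right]

end Pool.Agent.H23
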