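import Mathlib

/-!
# Power classes of the fixed field of finitely many automorphisms
-/

namespace Pool.Agent.H23

open IntermediateField

/-- If `K` is the fixed field of finitely many automorphisms `σ i` of a separably closed field `Ω`
over `F`, and `n` is invertible, then `Kˣ / (Kˣ)ⁿ` is finite. -/
theorem finite_powerClasses {F Ω : Type*} [Field F] [Field Ω] [Algebra F Ω] [IsSepClosed Ω]
    {e : ℕ} (σ : Fin e → (Ω ≃ₐ[F] Ω)) (n : ℕ) [NeZero (n : Ω)] :
    Finite ((fixedField (Subgroup.closure (Set.range σ)))ˣ ⧸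
      (powMonoidHom n : (fixedField (Subgroup.closure (Set.range σ)))ˣ →*
        (fixedField (Subgroup.closure (Set.range σ)))ˣ).range) := by
  classical
  set K := fixedField (Subgroup.closure (Set.range σ)) with hK
  have hn : 0 < n := Nat.pos_of_ne_zero (fun h => NeZero.ne (n : Ω) (by simp [h]))
  -- membership in K
  have hmem : ∀ x : Ω, (∀ i, σ i x = x) → x ∈ K := by
    intro x hx
    rw [hK, mem_fixedField_iff]
    intro f hf
    refine Subgroup.closure_induction (p := fun g _ => g x = x) ?_ ?_ ?_ ?_ hf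
    · rintro _ ⟨i, rfl⟩
      exact hx i
    · rfl
    · intro a b _ _ ha hb
      rw [AlgEquiv.mul_apply, hb, ha]
    · intro a _ ha
      calc a⁻¹ x = a⁻¹ (a x) := by rw [ha]
        _ = x := by rw [← AlgEquiv.mul_apply, inv_mul_cancel, AlgEquiv.one_apply]
  have hfix' : ∀ y ∈ K, ∀ f ∈ Subgroup.closure (Set.range σ), f y = y := by
    intro y hy
    rw [hK, mem_fixedField_iff] at hy
    exact hy
  have hfix : ∀ (x : K) (i : Fin e), σ i (x : Ω) = x := fun x i =>
    hfix' _ x.2 _ (Subgroup.subset_closure ⟨i, rfl⟩)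
  -- roots
  choose r hr using fun a : Kˣ => IsSepClosed.exists_pow_nat_eq (((a : K) : Ω)) n
  have hr0 : ∀ a : Kˣ, r a ≠ 0 := by
    intro a h
    have h1 := hr a
    rw [h, zero_pow hn.ne'] at h1
    exact a.ne_zero (by exact_mod_cast h1.symm)
  let X : Type _ := {z : Ω // z ∈ Polynomial.nthRootsFinset n (1 : Ω)}
  have : Finite X := Finset.finite_toSet _
  have hΦ : ∀ (a : Kˣ) (i : Fin e), σ i (r a) / r a ∈ Polynomial.nthRootsFinset n (1 : Ω) := by
    intro a i
    rw [Polynomial.mem_nthRootsFinset hn, div_pow, ← map_pow, hr a, hfix]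
    exact div_self (by exact_mod_cast a.ne_zero)
  let Φ : Kˣ → (Fin e → X) := fun a i => ⟨σ i (r a) / r a, hΦ a i⟩
  have key : ∀ a b : Kˣ, Φ a = Φ b →
      a⁻¹ * b ∈ (powMonoidHom n : Kˣ →* Kˣ).range := by
    intro a b hab
    have h1 : ∀ i, σ i (r b / r a) = r b / r a := by
      intro i
      have h2 : σ i (r a) / r a = σ i (r b) / r b := congrArg Subtype.val (congrFun hab i)
      rw [map_div₀]
      have h3 : σ i (r a) ≠ 0 := by
        rw [Ne, map_eq_zero_iff _ (σ i).injective]
        exact hr0 a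
      rw [div_eq_div_iff (hr0 a) (hr0 b)] at h2
      rw [div_eq_div_iff h3 (hr0 a)]
      linear_combination -h2
    have h4 : r b / r a ∈ K := hmem _ h1
    have h5 : (⟨r b / r a, h4⟩ : K) ≠ 0 := by
      intro h
      have : r b / r a = 0 := congrArg Subtype.val h
      exact div_ne_zero (hr0 b) (hr0 a) this
    refine ⟨Units.mk0 _ h5, ?_⟩
    ext
    simp only [powMonoidHom_apply, Units.val_pow_eq_pow_val, Units.val_mk0, Units.val_mul,
      Units.val_inv_eq_inv_val]
    push_cast
    rw [div_pow, hr a, hr b]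
    rw [div_eq_inv_mul]
  refine Finite.of_injective (fun q : Kˣ ⧸ (powMonoidHom n : Kˣ →* Kˣ).range =>
    Φ (Quotient.out q)) ?_
  intro q q' h
  have := key _ _ h
  rw [← Quotient.out_eq q, ← Quotient.out_eq q']
  exact QuotientGroup.eq.2 this

end Pool.Agent.H23
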